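import Pool.Agent.L5helper30.AA.Orb

/-!
# The proportions of the patterns (part DENS of helper29's plan)
-/

set_option autoImplicit false

namespace Pool.Agent.L5helper30.AA

open Polynomial Matrix Pool.Agent.L5helper29.AA
open Pool.Agent.W458.MF (irrSet)

theorem share_ge {N r : ℕ} [Fact r.Prime] (hN : 0 < N) (δ : ZMod r) (hδ : δ ≠ 0)
    (E : Set (ZMod r)[X]) (hE : ∀ f ∈ E, f.Monic ∧ f.natDegree = N) {c : ℝ} (hc : 0 < c)
    (h : c * (r : ℝ) ^ (N - 1) ≤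
      ({f : (ZMod r)[X] | f ∈ E ∧ f.coeff 0 = (-1) ^ N * δ}.ncard : ℝ)) :
    c / 2 ≤ share N r δ E := by
  classical
  have hr2 : 2 ≤ r := (Fact.out : r.Prime).two_le
  have hr2' : (2 : ℝ) ≤ r := by exact_mod_cast hr2
  have hrpos : (0 : ℝ) < r := by linarith
  obtain ⟨S, hS⟩ : ∃ S : Set (ZMod r)[X], S = {f | f ∈ E ∧ f.coeff 0 = (-1) ^ N * δ} := ⟨_, rfl⟩
  rw [← hS] at h
  have hSpos : (0 : ℝ) < (S.ncard : ℝ) := lt_of_lt_of_le (by positivity) h
  have hSne : S.ncard ≠ 0 := by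
    intro h0
    rw [h0] at hSpos
    simp at hSpos
  have hSfin : S.Finite := Set.finite_of_ncard_ne_zero hSne
  obtain ⟨P, hP⟩ : ∃ P : Finset (ZMod r)[X], (P : Set (ZMod r)[X]) = S := ⟨hSfin.toFinset, by simp⟩
  have hPS : S.ncard = P.card := by rw [← hP, Set.ncard_coe_finset]
  have hmem : ∀ f ∈ P, f ∈ E ∧ f.coeff 0 = (-1) ^ N * δ := by
    intro f hf
    have : f ∈ S := by rw [← hP]; exact Finset.mem_coe.mpr hf
    rw [hS] at this
    exact this
  -- finite sets of matrices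
  obtain ⟨D, hD⟩ : ∃ D : Finset (Matrix (Fin N) (Fin N) (ZMod r)),
    D = Finset.univ.filter fun B => B.det = δ ∧ B.charpoly ∈ E := ⟨_, rfl⟩
  obtain ⟨Dδ, hDδ⟩ : ∃ D : Finset (Matrix (Fin N) (Fin N) (ZMod r)),
    D = Finset.univ.filter fun B => B.det = δ := ⟨_, rfl⟩
  obtain ⟨G, hG⟩ : ∃ D : Finset (Matrix (Fin N) (Fin N) (ZMod r)),
    D = Finset.univ.filter fun B => B.det ≠ 0 := ⟨_, rfl⟩
  have eD : {B : Matrix (Fin N) (Fin N) (ZMod r) | B.det = δ ∧ B.charpoly ∈ E} = ↑D := by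
    rw [hD]; ext B; simp
  have eDδ : {B : Matrix (Fin N) (Fin N) (ZMod r) | B.det = δ} = ↑Dδ := by
    rw [hDδ]; ext B; simp
  have eG : {B : Matrix (Fin N) (Fin N) (ZMod r) | B.det ≠ 0} = ↑G := by
    rw [hG]; ext B; simp
  have hfib := fib N r δ hN hδ
  rw [eG, eDδ, Set.ncard_coe_finset, Set.ncard_coe_finset] at hfib
  have horb : ∀ f ∈ P, G.card ≤ r ^ N * (Finset.univ.filter
      fun B : Matrix (Fin N) (Fin N) (ZMod r) => B.charpoly = f).card := by
    intro f hf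
    obtain ⟨hm, hd⟩ := hE f (hmem f hf).1
    have := orb N r f hN hm hd
    have e : {B : Matrix (Fin N) (Fin N) (ZMod r) | B.charpoly = f} =
        ↑(Finset.univ.filter fun B : Matrix (Fin N) (Fin N) (ZMod r) => B.charpoly = f) := by
      ext B; simp
    rw [eG, e, Set.ncard_coe_finset, Set.ncard_coe_finset] at this
    exact this
  have hGpos : 0 < G.card := by
    refine Finset.card_pos.mpr ⟨1, ?_⟩
    rw [hG, Finset.mem_filter]
    exact ⟨Finset.mem_univ _, by simp⟩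
  have hDδpos : 0 < Dδ.card := by
    rcases Nat.eq_zero_or_pos Dδ.card with h0 | h0
    · rw [h0, Nat.mul_zero] at hfib
      omega
    · exact h0
  -- the sum over the polynomials
  have hsum : ∑ f ∈ P, (Finset.univ.filter
      fun B : Matrix (Fin N) (Fin N) (ZMod r) => B.charpoly = f).card ≤ D.card := by
    rw [← Finset.card_biUnion]
    · refine Finset.card_le_card fun B hB => ?_
      rw [Finset.mem_biUnion] at hB
      obtain ⟨f, hf, hB⟩ := hB
      have hBf := (Finset.mem_filter.mp hB).2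
      rw [hD, Finset.mem_filter]
      refine ⟨Finset.mem_univ _, ?_, ?_⟩
      · rw [Matrix.det_eq_sign_charpoly_coeff, hBf, (hmem f hf).2, Fintype.card_fin, ← mul_assoc,
          ← mul_pow]
        simp
      · rw [hBf]
        exact (hmem f hf).1
    · intro f _ g _ hfg
      refine Finset.disjoint_left.mpr fun B hB hB' => hfg ?_
      rw [← (Finset.mem_filter.mp hB).2, ← (Finset.mem_filter.mp hB').2]
  have hmain : P.card * G.card ≤ r ^ N * D.card := by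
    calc P.card * G.card = ∑ f ∈ P, G.card := by rw [Finset.sum_const, smul_eq_mul]
      _ ≤ ∑ f ∈ P, r ^ N * (Finset.univ.filter
          fun B : Matrix (Fin N) (Fin N) (ZMod r) => B.charpoly = f).card :=
          Finset.sum_le_sum horb
      _ = r ^ N * ∑ f ∈ P, (Finset.univ.filter
          fun B : Matrix (Fin N) (Fin N) (ZMod r) => B.charpoly = f).card := by
          rw [Finset.mul_sum]
      _ ≤ r ^ N * D.card := Nat.mul_le_mul_left _ hsum
  rw [hfib] at hmain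
  have hmain' : (P.card : ℝ) * (((r : ℝ) - 1) * (Dδ.card : ℝ)) ≤ (r : ℝ) ^ N * (D.card : ℝ) := by
    have : ((P.card * ((r - 1) * Dδ.card) : ℕ) : ℝ) ≤ ((r ^ N * D.card : ℕ) : ℝ) := by
      exact_mod_cast hmain
    rw [Nat.cast_mul, Nat.cast_mul, Nat.cast_mul, Nat.cast_pow, Nat.cast_sub (by omega : 1 ≤ r),
      Nat.cast_one] at this
    exact this
  unfold share
  rw [eD, eDδ, Set.ncard_coe_finset, Set.ncard_coe_finset]
  have hDδpos' : (0 : ℝ) < Dδ.card := by exact_mod_cast hDδpos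
  rw [le_div_iff₀ hDδpos']
  rw [hPS] at h
  have hrN : (r : ℝ) ^ N = (r : ℝ) ^ (N - 1) * r := by
    rw [← pow_succ]
    congr 1
    omega
  have hpow : (0 : ℝ) < (r : ℝ) ^ (N - 1) := by positivity
  have h1 : c * (r : ℝ) ^ (N - 1) * (((r : ℝ) - 1) * (Dδ.card : ℝ)) ≤
      (r : ℝ) ^ (N - 1) * r * (D.card : ℝ) := by
    rw [← hrN]
    refine le_trans (mul_le_mul_of_nonneg_right h ?_) hmain'
    exact mul_nonneg (by linarith) hDδpos'.le
  have h2 : c * (((r : ℝ) - 1) * (Dδ.card : ℝ)) ≤ r * (D.card : ℝ) := by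
    have h3 : (r : ℝ) ^ (N - 1) * (c * (((r : ℝ) - 1) * (Dδ.card : ℝ))) ≤
        (r : ℝ) ^ (N - 1) * (r * (D.card : ℝ)) := by
      nlinarith [h1]
    exact le_of_mul_le_mul_left h3 hpow
  have h4 : c * ((r : ℝ) / 2 * (Dδ.card : ℝ)) ≤ c * (((r : ℝ) - 1) * (Dδ.card : ℝ)) := by
    refine mul_le_mul_of_nonneg_left (mul_le_mul_of_nonneg_right ?_ hDδpos'.le) hc.le
    linarith
  have h5 : r * (c / 2 * (Dδ.card : ℝ)) ≤ r * (D.card : ℝ) := by
    calc (r : ℝ) * (c / 2 * (Dδ.card : ℝ)) = c * ((r : ℝ) / 2 * (Dδ.card : ℝ)) := by ring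
      _ ≤ _ := le_trans h4 h2
  exact le_of_mul_le_mul_left h5 hrpos

theorem splitE_spec {N e r : ℕ} [Fact r.Prime] : ∀ f ∈ splitE N e r, f.Monic ∧ f.natDegree = N := by
  rintro f ⟨T, hT, rfl, -⟩
  refine ⟨monic_prod_X_sub_C _ _, ?_⟩
  rw [natDegree_prod_of_monic _ _ fun t _ => monic_X_sub_C t]
  simp [hT]

theorem linIrr_spec {N r : ℕ} [Fact r.Prime] (hN : 1 ≤ N) :
    ∀ f ∈ linIrr N r, f.Monic ∧ f.natDegree = N := by
  rintro f ⟨a, g, rfl, hg⟩
  have hgm : g.Monic := hg.1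
  refine ⟨(monic_X_sub_C a).mul hgm, ?_⟩
  rw [(monic_X_sub_C a).natDegree_mul hgm, natDegree_X_sub_C, hg.2.1]
  omega

theorem dens (h1 : St_IRR0) (h2 : St_SPL0) (h3 : St_LIN0) : St_DENS := by
  intro N e hN he
  obtain ⟨c1, hc1, r1, H1⟩ := h1 N hN
  obtain ⟨c2, hc2, r2, H2⟩ := h2 N e hN he
  obtain ⟨c3, hc3, r3, H3⟩ : ∃ c : ℝ, 0 < c ∧ ∃ r₁ : ℕ, 3 ≤ N → ∀ r : ℕ, r.Prime →
      r₁ ≤ r → ∀ a : ZMod r, a ≠ 0 →
      c * (r : ℝ) ^ (N - 1) ≤ ({f : (ZMod r)[X] | f ∈ linIrr N r ∧ f.coeff 0 = a}.ncard : ℝ) := by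
    by_cases h : 3 ≤ N
    · obtain ⟨c, hc, r, H⟩ := h3 N h
      exact ⟨c, hc, r, fun _ => H⟩
    · exact ⟨1, one_pos, 0, fun h' => absurd h' h⟩
  refine ⟨min (c1 / 2) (min (c2 / 2) (c3 / 2)), by positivity, max r1 (max r2 r3), ?_⟩
  intro r hr hle δ hδ
  have : Fact r.Prime := ⟨hr⟩
  have hr1 : r1 ≤ r := le_trans (le_max_left _ _) hle
  have hr2 : r2 ≤ r := le_trans (le_trans (le_max_left _ _) (le_max_right _ _)) hle
  have hr3 : r3 ≤ r := le_trans (le_trans (le_max_right _ _) (le_max_right _ _)) hle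
  have ha : (-1 : ZMod r) ^ N * δ ≠ 0 := mul_ne_zero (pow_ne_zero _ (neg_ne_zero.mpr one_ne_zero)) hδ
  refine ⟨?_, ?_, fun hN3 => ?_⟩
  · exact le_trans (min_le_left _ _) (share_ge (by omega) δ hδ (irrSet N r)
      (fun f hf => ⟨hf.1, hf.2.1⟩) hc1 (H1 r hr hr1 _ ha))
  · exact le_trans (le_trans (min_le_right _ _) (min_le_left _ _))
      (share_ge (by omega) δ hδ (splitE N e r) splitE_spec hc2 (H2 r hr hr2 _ ha))
  · exact le_trans (le_trans (min_le_right _ _) (min_le_right _ _))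
      (share_ge (by omega) δ hδ (linIrr N r) (linIrr_spec (by omega)) hc3 (H3 hN3 r hr hr3 _ ha))

end Pool.Agent.L5helper30.AA
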