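import Pool.Agent.L5helper29.AA.Defs

/-!
# Matrices with given characteristic polynomial, matrices with given determinant
(parts ORB and FIB of helper29's plan)
-/

set_option autoImplicit false

namespace Pool.Agent.L5helper30.AA

open Polynomial Matrix Pool.Agent.L5helper29.AA

theorem fib : St_FIB := by
  classical
  intro N r _ δ hN hδ
  -- all nonzero determinants have as many matrices
  have hfix : ∀ δ' : ZMod r, δ' ≠ 0 →
      (Finset.univ.filter fun B : Matrix (Fin N) (Fin N) (ZMod r) => B.det = δ').card =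
      (Finset.univ.filter fun B : Matrix (Fin N) (Fin N) (ZMod r) => B.det = δ).card := by
    intro δ' hδ'
    let D : ZMod r → Matrix (Fin N) (Fin N) (ZMod r) := fun a =>
      Matrix.diagonal (fun i => if i = ⟨0, hN⟩ then a else 1)
    have hD : ∀ a, (D a).det = a := by
      intro a
      rw [Matrix.det_diagonal, Finset.prod_ite_eq' Finset.univ (⟨0, hN⟩ : Fin N) (fun _ => a)]
      simp
    have hDD : ∀ a c, D a * D c = D (a * c) := by
      intro a c
      rw [Matrix.diagonal_mul_diagonal]
      congr 1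
      funext i
      by_cases h : i = ⟨0, hN⟩ <;> simp [h]
    have hD1 : D 1 = 1 := by
      have : (fun i : Fin N => if i = ⟨0, hN⟩ then (1 : ZMod r) else 1) = fun _ => 1 := by
        funext i; simp
      simp only [D, this]
      exact Matrix.diagonal_one
    refine Finset.card_bij' (fun B _ => D (δ / δ') * B) (fun B _ => D (δ' / δ) * B) ?_ ?_ ?_ ?_
    · intro B hB
      rw [Finset.mem_filter] at hB ⊢
      refine ⟨Finset.mem_univ _, ?_⟩
      rw [Matrix.det_mul, hD, hB.2, div_mul_cancel₀ _ hδ']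
    · intro B hB
      rw [Finset.mem_filter] at hB ⊢
      refine ⟨Finset.mem_univ _, ?_⟩
      rw [Matrix.det_mul, hD, hB.2, div_mul_cancel₀ _ hδ]
    · intro B _
      show D (δ' / δ) * (D (δ / δ') * B) = B
      rw [← Matrix.mul_assoc, hDD, show δ' / δ * (δ / δ') = 1 by field_simp, hD1, Matrix.one_mul]
    · intro B _
      show D (δ / δ') * (D (δ' / δ) * B) = B
      rw [← Matrix.mul_assoc, hDD, show δ / δ' * (δ' / δ) = 1 by field_simp, hD1, Matrix.one_mul]
  have h1 : {B : Matrix (Fin N) (Fin N) (ZMod r) | B.det ≠ 0} =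
      ↑(Finset.univ.filter fun B : Matrix (Fin N) (Fin N) (ZMod r) => B.det ≠ 0) := by
    ext B; simp
  have h2 : {B : Matrix (Fin N) (Fin N) (ZMod r) | B.det = δ} =
      ↑(Finset.univ.filter fun B : Matrix (Fin N) (Fin N) (ZMod r) => B.det = δ) := by
    ext B; simp
  rw [h1, h2, Set.ncard_coe_finset, Set.ncard_coe_finset]
  have h3 : (Finset.univ.filter fun B : Matrix (Fin N) (Fin N) (ZMod r) => B.det ≠ 0).card =
      ∑ δ' ∈ (Finset.univ.erase (0 : ZMod r)),
        ((Finset.univ.filter fun B : Matrix (Fin N) (Fin N) (ZMod r) => B.det ≠ 0).filter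
          fun B => B.det = δ').card :=
    Finset.card_eq_sum_card_fiberwise fun B hB => by
      have hB' := (Finset.mem_filter.mp hB).2
      exact Finset.mem_coe.mpr (Finset.mem_erase.mpr ⟨hB', Finset.mem_univ _⟩)
  rw [h3]
  have h4 : ∀ δ' ∈ (Finset.univ.erase (0 : ZMod r)),
      ((Finset.univ.filter fun B : Matrix (Fin N) (Fin N) (ZMod r) => B.det ≠ 0).filter
          fun B => B.det = δ').card =
      (Finset.univ.filter fun B : Matrix (Fin N) (Fin N) (ZMod r) => B.det = δ).card := by
    intro δ' hδ'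
    have hne := (Finset.mem_erase.mp hδ').1
    rw [← hfix δ' hne]
    congr 1
    ext B
    simp only [Finset.mem_filter, Finset.mem_univ, true_and]
    constructor
    · exact fun h => h.2
    · exact fun h => ⟨by rw [h]; exact hne, h⟩
  rw [Finset.sum_congr rfl h4, Finset.sum_const, smul_eq_mul,
    Finset.card_erase_of_mem (Finset.mem_univ _), Finset.card_univ, ZMod.card]

theorem orb : St_ORB := by
  classical
  intro N r _ f hN hfm hfd
  have hf0 : f ≠ 0 := hfm.ne_zero
  let pb := AdjoinRoot.powerBasis hf0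
  have hpb : pb.dim = N := by
    rw [← hfd]; rfl
  let b : Module.Basis (Fin N) (ZMod r) (AdjoinRoot f) := pb.basis.reindex (finCongr hpb)
  have hb : ∀ i, b i = (AdjoinRoot.root f) ^ (i : ℕ) := by
    intro i
    have : b i = pb.basis ((finCongr hpb).symm i) := Module.Basis.reindex_apply _ _ _
    rw [this, pb.basis_eq_pow]
    rfl
  have : Module.Finite (ZMod r) (AdjoinRoot f) := Module.Finite.of_basis b
  have hchar : (Algebra.leftMulMatrix b (AdjoinRoot.root f)).charpoly = f := by
    have h1 : (Algebra.leftMulMatrix b (AdjoinRoot.root f)).charpoly =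
        (Algebra.leftMulMatrix pb.basis pb.gen).charpoly := by
      rw [Algebra.leftMulMatrix_apply, Algebra.leftMulMatrix_apply, LinearMap.charpoly_toMatrix,
        LinearMap.charpoly_toMatrix]
      rfl
    rw [h1, charpoly_leftMulMatrix]
    exact AdjoinRoot.minpoly_powerBasis_gen_of_monic hfm hf0
  obtain ⟨M, hM⟩ : ∃ M, M = Algebra.leftMulMatrix b (AdjoinRoot.root f) := ⟨_, rfl⟩
  rw [← hM] at hchar
  -- the cyclic vector
  obtain ⟨v, hv⟩ : ∃ v : Fin N → ZMod r, v = b.repr 1 := ⟨_, rfl⟩
  have hcyc : ∀ i : Fin N, (M ^ (i : ℕ)) *ᵥ v = Pi.single i 1 := by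
    intro i
    rw [hM, ← map_pow, hv, Algebra.leftMulMatrix_mulVec_repr, mul_one, ← hb i, b.repr_self]
    exact Finsupp.single_eq_pi_single i 1
  have hinj : ∀ t g g' : Matrix (Fin N) (Fin N) (ZMod r), g * M = t * g → g' * M = t * g' →
      g *ᵥ v = g' *ᵥ v → g = g' := by
    intro t g g' hg hg' hgv
    have hpow : ∀ (k : Matrix (Fin N) (Fin N) (ZMod r)), k * M = t * k →
        ∀ n : ℕ, k * M ^ n = t ^ n * k := by
      intro k hk n
      induction n with
      | zero => simp
      | succ n ih => rw [pow_succ, ← Matrix.mul_assoc, ih, Matrix.mul_assoc, hk,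
          ← Matrix.mul_assoc, ← pow_succ]
    apply Matrix.ext_of_mulVec_single
    intro i
    rw [← hcyc i, Matrix.mulVec_mulVec, Matrix.mulVec_mulVec, hpow g hg, hpow g' hg',
      ← Matrix.mulVec_mulVec, ← Matrix.mulVec_mulVec, hgv]
  have h1 : {B : Matrix (Fin N) (Fin N) (ZMod r) | B.det ≠ 0} =
      ↑(Finset.univ.filter fun B : Matrix (Fin N) (Fin N) (ZMod r) => B.det ≠ 0) := by
    ext B; simp
  have h2 : {B : Matrix (Fin N) (Fin N) (ZMod r) | B.charpoly = f} =
      ↑(Finset.univ.filter fun B : Matrix (Fin N) (Fin N) (ZMod r) => B.charpoly = f) := by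
    ext B; simp
  rw [h1, h2, Set.ncard_coe_finset, Set.ncard_coe_finset]
  refine Finset.card_le_mul_card_image_of_maps_to (f := fun g => g * M * g⁻¹) ?_ (r ^ N) ?_
  · intro g hg
    have hg' := (Finset.mem_filter.mp hg).2
    refine Finset.mem_filter.mpr ⟨Finset.mem_univ _, ?_⟩
    have hu : IsUnit g.det := isUnit_iff_ne_zero.mpr hg'
    rw [← hchar]
    show (g * M * g⁻¹).charpoly = M.charpoly
    rw [Matrix.charpoly_mul_comm, ← Matrix.mul_assoc, Matrix.nonsing_inv_mul _ hu, Matrix.one_mul]
  · intro t _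
    have h3 : (Finset.univ : Finset (Fin N → ZMod r)).card = r ^ N := by
      rw [Finset.card_univ, Fintype.card_fun, ZMod.card, Fintype.card_fin]
    rw [← h3]
    refine Finset.card_le_card_of_injOn (fun g => g *ᵥ v) (fun _ _ => Finset.mem_coe.mpr (Finset.mem_univ _)) ?_
    intro g hg g' hg' hgg
    have key : ∀ k ∈ (Finset.univ.filter fun B : Matrix (Fin N) (Fin N) (ZMod r) =>
        B.det ≠ 0).filter (fun k => k * M * k⁻¹ = t), k * M = t * k := by
      intro k hk
      rw [Finset.mem_filter, Finset.mem_filter] at hk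
      have hu : IsUnit k.det := isUnit_iff_ne_zero.mpr hk.1.2
      rw [← hk.2, Matrix.mul_assoc, Matrix.nonsing_inv_mul _ hu, Matrix.mul_one]
    exact hinj t g g' (key g (Finset.mem_coe.mp hg)) (key g' (Finset.mem_coe.mp hg')) hgg

end Pool.Agent.L5helper30.AA
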